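import Pool.Agent.helper99.WN.SpecA

/-!
# Row wn:CA (MP_5c1f29_al): maximal arcs
-/

set_option autoImplicit false

namespace Pool.Agent.WN

theorem CA_iv {k : ℕ} (a : Lt k) : iv (iv a) = a := by
  unfold iv
  simp

theorem CA_per {k N : ℕ} {W : ℤ → Lt k} (hW : Wd W N) {i j : ℤ} (h : (N : ℤ) ∣ i - j) : W i = W j := by
  obtain ⟨c, hc⟩ := h
  have h1 : ∀ (m : ℕ) (j : ℤ), W (j + N * m) = W j := by
    intro m
    induction m with
    | zero => intro j; simp
    | succ m ih =>
      intro j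
      have h2 : j + N * ((m + 1 : ℕ) : ℤ) = (j + N * m) + N := by push_cast; ring
      rw [h2, hW.per, ih]
  rcases Int.le_total 0 c with h0 | h0
  · obtain ⟨m, rfl⟩ := Int.eq_ofNat_of_zero_le h0
    rw [← h1 m j, ← hc]
    congr 1
    ring
  · obtain ⟨m, hm⟩ := Int.eq_ofNat_of_zero_le (show 0 ≤ -c by omega)
    rw [← h1 m i]
    congr 1
    have h3 : c = -(m : ℤ) := by omega
    rw [h3] at hc
    linear_combination hc

/-- forwards agreement -/
theorem CA_fwd {V : Type} {k N : ℕ} {R : V → Lt k → V → Prop} {W : ℤ → Lt k} (hW : Wd W N) (hD : Det R)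
    {s s' : ℤ} {z z' : ℤ → V} (hs : (N : ℤ) ∣ s - s') (hz : z s = z' s') (m : ℕ)
    (h1 : Run R W s (s + m) z) (h2 : Run R W s' (s' + m) z') : z (s + m) = z' (s' + m) := by
  induction m with
  | zero => simpa using hz
  | succ m ih =>
    have h3 := ih (fun t ht ht' => h1 t ht (by push_cast; omega)) (fun t ht ht' => h2 t ht (by push_cast; omega))
    have h4 := h1 (s + m) (by omega) (by push_cast; omega)
    have h5 := h2 (s' + m) (by omega) (by push_cast; omega)
    have h6 : W (s + m) = W (s' + m) := CA_per hW (by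
      have : s + m - (s' + m) = s - s' := by ring
      rw [this]; exact hs)
    rw [h3, h6] at h4
    have h7 := hD _ _ _ _ h4 h5
    have h8 : s + ((m + 1 : ℕ) : ℤ) = s + m + 1 := by push_cast; ring
    have h9 : s' + ((m + 1 : ℕ) : ℤ) = s' + m + 1 := by push_cast; ring
    rw [h8, h9]
    exact h7

/-- backwards agreement -/
theorem CA_bwd {V : Type} {k N : ℕ} {R : V → Lt k → V → Prop} {W : ℤ → Lt k} (hW : Wd W N) (hD : Det R) (hS : Sym R)
    {i i' : ℤ} {z z' : ℤ → V} (hs : (N : ℤ) ∣ i - i') (hz : z i = z' i') (m : ℕ)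
    (h1 : Run R W (i - m) i z) (h2 : Run R W (i' - m) i' z') : z (i - m) = z' (i' - m) := by
  induction m with
  | zero => simpa using hz
  | succ m ih =>
    have h3 := ih (fun t ht ht' => h1 t (by push_cast; omega) ht') (fun t ht ht' => h2 t (by push_cast; omega) ht')
    have h4 := hS _ _ _ (h1 (i - m - 1) (by push_cast; omega) (by omega))
    have h5 := hS _ _ _ (h2 (i' - m - 1) (by push_cast; omega) (by omega))
    have h6 : W (i - m - 1) = W (i' - m - 1) := CA_per hW (by
      have : i - m - 1 - (i' - m - 1) = i - i' := by ring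
      rw [this]; exact hs)
    rw [sub_add_cancel] at h4 h5
    rw [h3, h6] at h4
    have h7 := hD _ _ _ _ h4 h5
    have h8 : i - ((m + 1 : ℕ) : ℤ) = i - m - 1 := by push_cast; ring
    have h9 : i' - ((m + 1 : ℕ) : ℤ) = i' - m - 1 := by push_cast; ring
    rw [h8, h9]
    exact h7

theorem CA_long {V : Type} {k N n : ℕ} {R : V → Lt k → V → Prop} {W : ℤ → Lt k} (h : Hyp R W N n)
    {v : V} {i : ℤ} {l : ℤ} {z : ℤ → V} (hr : Run R W (i - l) i z) (hz : z i = v) (hM : Ms R v (W i)) :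
    l < ((n : ℤ) - 3) * N := by
  by_contra hcon
  push Not at hcon
  have hn := h.seven
  have hN := h.wd.pos
  obtain ⟨q, rfl⟩ : ∃ q, n = q + 3 := ⟨n - 3, by omega⟩
  have hq : (((q + 3 : ℕ) : ℤ) - 3) * N = ((q * N : ℕ) : ℤ) := by push_cast; ring
  rw [hq] at hcon
  have hr1 : Run R W (i - (q * N : ℕ)) (i - (q * N : ℕ) + (((q + 3 : ℕ) : ℤ) - 3) * N) z := by
    intro t ht ht'
    rw [hq] at ht'
    exact hr t (by omega) (by omega)
  obtain ⟨z', hz1, hz2, -⟩ := h.cl _ z hr1
  have hN3 : (0 : ℤ) < 3 * (N : ℤ) := by omega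
  have hq2 : ((q + 3 : ℕ) : ℤ) * N = ((q * N : ℕ) : ℤ) + 3 * N := by push_cast; ring
  rw [hq2] at hz1
  have h1 := CA_fwd (s := i - (q * N : ℕ)) (s' := i - (q * N : ℕ)) (z := z) (z' := z') h.wd h.det (by simp) hz2.symm (q * N)
    (by intro t ht ht'; exact hr t (by omega) (by omega))
    (by intro t ht ht'; exact hz1 t ht (by omega))
  rw [sub_add_cancel, hz] at h1
  have h2 := hz1 i (by omega) (by omega)
  rw [← h1] at h2
  exact hM _ h2

theorem CA : CA_stmt := by
  intro V k R W N n h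
  refine ⟨?_, ?_, ?_, ?_⟩
  · intro v i hM
    have hN : (0 : ℤ) < (N : ℤ) := by exact_mod_cast h.wd.pos
    have hn := h.seven
    have hP0 : ∃ z : ℤ → V, z i = v ∧ Run R W (i - ((0 : ℕ) : ℤ)) i z :=
      ⟨fun _ => v, rfl, fun t ht ht' => by exfalso; push_cast at ht; omega⟩
    have hbd : ∀ l : ℕ, (∃ z : ℤ → V, z i = v ∧ Run R W (i - (l : ℤ)) i z) → l ≤ n * N := by
      rintro l ⟨z, hz, hr⟩
      have h1 := CA_long h hr hz hM
      have h2 : ((n : ℤ) - 3) * N ≤ (n : ℤ) * N := mul_le_mul_of_nonneg_right (by omega) hN.le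
      have h3 : (l : ℤ) ≤ ((n * N : ℕ) : ℤ) := by push_cast; omega
      exact_mod_cast h3
    classical
    have hg := Nat.findGreatest_spec (P := fun l : ℕ => ∃ z : ℤ → V, z i = v ∧ Run R W (i - (l : ℤ)) i z) (Nat.zero_le (n * N)) hP0
    obtain ⟨l, hl⟩ : ∃ l, l = Nat.findGreatest (fun l : ℕ => ∃ z : ℤ → V, z i = v ∧ Run R W (i - (l : ℤ)) i z) (n * N) := ⟨_, rfl⟩
    rw [← hl] at hg
    obtain ⟨z, hz, hr⟩ := hg
    refine ⟨z (i - l), l, hM, ?_, z, rfl, hz, hr⟩
    intro y' hy'
    have h1 := h.sym _ _ _ hy'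
    rw [CA_iv] at h1
    have h2 : ∃ z : ℤ → V, z i = v ∧ Run R W (i - ((l + 1 : ℕ) : ℤ)) i z := by
      refine ⟨fun t => if t = i - l - 1 then y' else z t, ?_, ?_⟩
      · change (if i = i - (l : ℤ) - 1 then y' else z i) = v
        rw [if_neg (by omega)]
        exact hz
      · intro t ht ht'
        push_cast at ht
        simp only
        rw [if_neg (show ¬ t + 1 = i - l - 1 by omega)]
        by_cases h3 : t = i - l - 1
        · rw [if_pos h3, h3, sub_add_cancel]
          exact h1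
        · rw [if_neg h3]
          exact hr t (by omega) ht'
    have h3 := hbd (l + 1) h2
    have h4 := Nat.le_findGreatest (P := fun l : ℕ => ∃ z : ℤ → V, z i = v ∧ Run R W (i - (l : ℤ)) i z) h3 h2
    rw [← hl] at h4
    omega
  · rintro v i y l ⟨hM, -, z, -, hz, hr⟩
    exact CA_long h hr hz hM
  · have key : ∀ v i y l i' y' l', Arc R W v i y l → Arc R W v i' y' l' → (N : ℤ) ∣ i - i' → ¬ l < l' := by
      rintro v i y l i' y' l' ⟨-, hM2, z, hz1, hz2, hr⟩ ⟨-, -, z', -, hz2', hr'⟩ hd hlt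
      have h1 := CA_bwd h.wd h.det h.sym hd (hz2.trans hz2'.symm) l hr (fun t ht ht' => hr' t (by omega) ht')
      have h2 := h.sym _ _ _ (hr' (i' - l - 1) (by omega) (by omega))
      rw [sub_add_cancel, ← h1, hz1] at h2
      have h6 : W (i' - l - 1) = W (i - l - 1) := CA_per h.wd (by
        have : i' - l - 1 - (i - l - 1) = -(i - i') := by ring
        rw [this]; exact (dvd_neg).mpr hd)
      rw [h6] at h2
      exact hM2 _ h2
    intro v i y l i' y' l' h1 h2 hd
    have hd' : (N : ℤ) ∣ i' - i := by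
      have : i' - i = -(i - i') := by ring
      rw [this]; exact (dvd_neg).mpr hd
    have h3 := key v i y l i' y' l' h1 h2 hd
    have h4 := key v i' y' l' i y l h2 h1 hd'
    have h5 : l = l' := by omega
    subst h5
    obtain ⟨-, -, z, hz1, hz2, hr⟩ := h1
    obtain ⟨-, -, z', hz1', hz2', hr'⟩ := h2
    have h6 := CA_bwd h.wd h.det h.sym hd (hz2.trans hz2'.symm) l hr hr'
    rw [hz1, hz1'] at h6
    exact ⟨h6, rfl⟩
  · have key : ∀ v i y l v' i' l', Arc R W v i y l → Arc R W v' i' y l' → (N : ℤ) ∣ (i - l) - (i' - l') → ¬ l < l' := by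
      rintro v i y l v' i' l' ⟨hM1, -, z, hz1, hz2, hr⟩ ⟨-, -, z', hz1', hz2', hr'⟩ hd hlt
      have h1 := CA_fwd h.wd h.det hd (hz1.trans hz1'.symm) l (fun t ht ht' => hr t ht (by omega)) (fun t ht ht' => hr' t ht (by omega))
      rw [sub_add_cancel, hz2] at h1
      have h2 := hr' (i' - l' + l) (by omega) (by omega)
      have h6 : W (i' - l' + l) = W i := CA_per h.wd (by
        have : i' - l' + l - i = -((i - l) - (i' - l')) := by ring
        rw [this]; exact (dvd_neg).mpr hd)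
      rw [← h1, h6] at h2
      exact hM1 _ h2
    intro v i y l v' i' l' h1 h2 hd
    have hd' : (N : ℤ) ∣ (i' - l') - (i - l) := by
      have : (i' - l') - (i - l) = -((i - l) - (i' - l')) := by ring
      rw [this]; exact (dvd_neg).mpr hd
    have h3 := key v i y l v' i' l' h1 h2 hd
    have h4 := key v' i' y l' v i l h2 h1 hd'
    have h5 : l = l' := by omega
    subst h5
    obtain ⟨-, -, z, hz1, hz2, hr⟩ := h1
    obtain ⟨-, -, z', hz1', hz2', hr'⟩ := h2
    have h6 := CA_fwd h.wd h.det hd (hz1.trans hz1'.symm) l (fun t ht ht' => hr t ht (by omega)) (fun t ht ht' => hr' t ht (by omega))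
    rw [sub_add_cancel, sub_add_cancel, hz2, hz2'] at h6
    exact ⟨h6, rfl⟩

end Pool.Agent.WN
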